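import Mathlib
import Pool.Agent.Helper17.Berk.Main
import Pool.Agent.Helper34.Berk.Literal

set_option autoImplicit false

/-!
# Equidistribution of repelling periodic points on the Berkovich projective line

For every algebraically closed field `K` with a nontrivial ultrametric absolute value, every
rational function `R` over `K` of degree `d ≥ 2` and the equilibrium measure `ρ` of `R`, the
measures `d^{-n} ∑_{x ∈ RFix(R^n)} deg_{R^n}(x) δ_x` converge weakly to `ρ`.
-/

namespace Pool.Agent.Results.MP_160e9b_an.Equidistribution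

open Pool.Agent.Helper17.Berk Pool.Agent.Helper34.Berk MeasureTheory Filter Topology

universe u

/-- **Main theorem.**  Let `K` be an algebraically closed field, complete or not, with a nontrivial
ultrametric absolute value, `R` a rational function of degree `d ≥ 2` and `ρ` a (regular)
probability measure on the Berkovich projective line with `R^* ρ = d ρ`, supported on the Julia
set of `R`.  Then, for every `n ≥ 1`, the set of repelling fixed points of `R^n` is finite, and
`d^{-n} ∑_{x ∈ RFix(R^n)} deg_{R^n}(x) φ(x)` converges to `∫ φ dρ` for all continuous `φ`. -/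
theorem result (K : Type u) [NontriviallyNormedField K] [IsUltrametricDist K] [IsAlgClosed K]
    (R : RatMap K) (hd : 2 ≤ R.deg) (ρ : Measure (P1 K)) [IsProbabilityMeasure ρ] [ρ.Regular]
    (hρ : IsEquilibriumLit R ρ) :
    (∀ n : ℕ, 1 ≤ n → ((R.iter n).RFix).Finite) ∧
      ∀ φ : C(P1 K, ℝ),
        Tendsto (fun n : ℕ => ((R.deg : ℝ) ^ n)⁻¹ *
            ∑ᶠ x ∈ (R.iter n).RFix, ((R.iter n).locDeg x : ℝ) * φ x)
          atTop (𝓝 (∫ x, φ x ∂ρ)) := by
  refine ⟨fun n hn => (R.iter n).RFix_finite ?_, fun φ => ?_⟩
  · rw [R.deg_iter]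
    calc 2 ≤ R.deg := hd
      _ = R.deg ^ 1 := (pow_one _).symm
      _ ≤ R.deg ^ n := Nat.pow_le_pow_right (by omega) hn
  · exact (Setup.equidistribution (R := R) (ρ := ρ)
      ⟨hd, inferInstance, inferInstance, hρ.isEquilibrium (by omega)⟩ φ)

end Pool.Agent.Results.MP_160e9b_an.Equidistribution
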